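import Pool.Agent.helper29.PQ.Spec

/-!
# Row pq:A4 (MP_56fc12_nt): dispersion bound for `a(q) = q - π(q)` in residue classes.
-/

namespace Pool.Agent.helper29.PQ

open Finset Pool.Agent.helper35.LinPrimes Pool.Agent.helper74.TG Filter

/-- Cauchy-Schwarz along a progression. -/
lemma a4_cs {C₃ : ℝ} (hC : 0 < C₃) (h2 : ∀ H : ℕ, ∑ g ∈ Ioc 0 H, h g ^ 2 ≤ C₃ * H)
    (H i d : ℕ) (hd : 0 < d) :
    ∑ g ∈ Ioo i H with d ∣ g - i, h g ≤ H * (Real.sqrt C₃ * (d : ℝ) ^ (-(1 / 2) : ℝ)) := by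
  have hd' : (0 : ℝ) < d := by exact_mod_cast hd
  set G := {g ∈ Ioo i H | d ∣ g - i} with hG
  have hcard : #G ≤ H / d := by
    have h0 : #G ≤ #(Ioc 0 (H / d)) := by
      apply Finset.card_le_card_of_injOn (fun g => (g - i) / d)
      · intro g hg
        simp only [hG, coe_filter, mem_Ioo, Set.mem_ofPred_eq] at hg
        obtain ⟨⟨h1, h3⟩, k, hk⟩ := hg
        simp only [coe_Ioc, Set.mem_Ioc]
        constructor
        · rw [hk, Nat.mul_div_cancel_left _ hd]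
          rcases Nat.eq_zero_or_pos k with h | h
          · subst h; omega
          · exact h
        · exact Nat.div_le_div_right (by omega)
      · intro g hg g' hg' heq
        simp only [hG, coe_filter, mem_Ioo, Set.mem_ofPred_eq] at hg hg'
        obtain ⟨⟨h1, h3⟩, k, hk⟩ := hg
        obtain ⟨⟨h1', h3'⟩, k', hk'⟩ := hg'
        simp only [hk, hk', Nat.mul_div_cancel_left _ hd] at heq
        subst heq
        omega
    simpa using h0
  have hcard' : (#G : ℝ) ≤ H / d := by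
    calc (#G : ℝ) ≤ ((H / d : ℕ) : ℝ) := by exact_mod_cast hcard
      _ ≤ H / d := Nat.cast_div_le
  have hsub : ∑ g ∈ G, h g ^ 2 ≤ C₃ * H := by
    refine le_trans (Finset.sum_le_sum_of_subset_of_nonneg ?_ ?_) (h2 H)
    · intro g hg
      simp only [hG, mem_filter, mem_Ioo] at hg
      simp only [mem_Ioc]
      omega
    · intro g _ _
      positivity
  have hsq : (∑ g ∈ G, h g) ^ 2 ≤ (H * (Real.sqrt C₃ * (d : ℝ) ^ (-(1 / 2) : ℝ))) ^ 2 := by
    have e : ((d : ℝ) ^ (-(1 / 2) : ℝ)) ^ 2 = (d : ℝ)⁻¹ := by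
      rw [← Real.rpow_natCast, ← Real.rpow_mul hd'.le]
      norm_num
      exact Real.rpow_neg_one _
    calc (∑ g ∈ G, h g) ^ 2 ≤ #G * ∑ g ∈ G, h g ^ 2 := sq_sum_le_card_mul_sum_sq
      _ ≤ (H / d) * (C₃ * H) := by
          apply mul_le_mul hcard' hsub (Finset.sum_nonneg fun g _ => sq_nonneg _) (by positivity)
      _ = (H * (Real.sqrt C₃ * (d : ℝ) ^ (-(1 / 2) : ℝ))) ^ 2 := by
          rw [mul_pow, mul_pow, Real.sq_sqrt hC.le, e]
          ring
  have hnn : 0 ≤ H * (Real.sqrt C₃ * (d : ℝ) ^ (-(1 / 2) : ℝ)) := by positivity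
  exact le_of_sq_le_sq hsq hnn

theorem A4 (h1 : A1_stmt) (h2 : A2_stmt) (h3 : A3_stmt) : A4_stmt := by
  obtain ⟨C₂, hC₂, Y₁, h1⟩ := h1
  obtain ⟨C₃, hC₃, h2⟩ := h2
  have e1 : ∀ᶠ Y : ℕ in atTop, (Nat.primeCounting Y : ℝ) ≤ 3 * Y / Real.log Y := by
    have e0 := (Chebyshev.eventually_primeCounting_le (ε := 1) one_pos)
    have e0' := tendsto_natCast_atTop_atTop (R := ℝ) |>.eventually e0
    have e0'' : ∀ᶠ Y : ℕ in atTop, 1 ≤ Y := eventually_ge_atTop 1
    filter_upwards [e0', e0''] with Y hY hY1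
    rw [Nat.floor_natCast] at hY
    have hlog : 0 ≤ Real.log Y := Real.log_natCast_nonneg Y
    have hl4 : Real.log 4 ≤ 2 := by
      have : Real.log 4 = 2 * Real.log 2 := by
        rw [show (4 : ℝ) = 2 ^ 2 by norm_num, Real.log_pow]; norm_num
      rw [this]
      have := Real.log_two_lt_d9
      linarith
    refine hY.trans ?_
    apply div_le_div_of_nonneg_right _ hlog
    have : (0 : ℝ) ≤ Y := Nat.cast_nonneg Y
    nlinarith
  have tl : Tendsto (fun Y : ℕ => Real.log Y) atTop atTop :=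
    Real.tendsto_log_atTop.comp tendsto_natCast_atTop_atTop
  have e2 : ∀ᶠ Y : ℕ in atTop, 12 ≤ Real.log Y := tl.eventually_ge_atTop 12
  have e3 : ∀ᶠ Y : ℕ in atTop, 6 * Real.log Y ^ 10 ≤ Y := by
    have h0 : (fun x : ℝ => Real.log x ^ 10) =o[atTop] (fun x : ℝ => x) :=
      Real.isLittleO_pow_log_id_atTop
    have h00 := h0.bound (c := 1 / 6) (by norm_num)
    have := tendsto_natCast_atTop_atTop (R := ℝ) |>.eventually h00
    filter_upwards [this] with Y hY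
    simp only [norm_pow, Real.norm_eq_abs, Nat.abs_cast] at hY
    have hlog : 0 ≤ Real.log Y := Real.log_natCast_nonneg Y
    rw [abs_of_nonneg hlog] at hY
    linarith
  obtain ⟨Y₀, hY₀⟩ := eventually_atTop.1 (e1.and (e2.and (e3.and (eventually_ge_atTop Y₁))))
  refine ⟨1 + 225 * C₂ * Real.sqrt C₃, by positivity, Y₀, ?_⟩
  intro Y hY d hd hdL c
  obtain ⟨p1, p2, p3, p4⟩ := hY₀ Y hY
  set L := Real.log Y with hL
  set S := {q ∈ Ioc 0 Y | q.Prime ∧ q ≠ 2 ∧ aq q % d = c % d} with hS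
  set D := (d : ℝ) ^ (-(1 / 6) : ℝ) with hD
  have hd' : (0 : ℝ) < d := by exact_mod_cast hd
  have hLpos : 0 < L := by linarith
  have hYpos : (0 : ℝ) < Y := by
    have : 0 < L ^ 10 := by positivity
    linarith
  have hDpos : 0 < D := by positivity
  have hD1 : D ≤ 1 := by
    rw [hD]
    apply Real.rpow_le_one_of_one_le_of_nonpos
    · exact_mod_cast hd
    · norm_num
  have hD3 : D ^ 3 = (d : ℝ) ^ (-(1 / 2) : ℝ) := by
    rw [hD, ← Real.rpow_natCast, ← Real.rpow_mul hd'.le]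
    norm_num
  have hDL : 1 / L ^ 9 ≤ D := by
    have h50 : (d : ℝ) ≤ L ^ 54 := hdL.trans (pow_le_pow_right₀ (by linarith) (by norm_num))
    have : (L ^ 54) ^ (-(1 / 6) : ℝ) ≤ D := by
      rw [hD]
      exact Real.rpow_le_rpow_of_nonpos hd' h50 (by norm_num)
    refine le_trans (le_of_eq ?_) this
    rw [← Real.rpow_natCast L 54, ← Real.rpow_mul hLpos.le]
    norm_num
  have hsC : (#S : ℝ) ≤ Nat.primeCounting Y := by
    have : #S ≤ Nat.primeCounting Y := by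
      rw [Nat.primeCounting, Nat.primeCounting', Nat.count_eq_card_filter_range]
      apply card_le_card
      intro q hq
      simp only [hS, mem_filter, mem_Ioc] at hq
      simp only [mem_filter, mem_range]
      exact ⟨by omega, hq.2.1⟩
    exact_mod_cast this
  obtain ⟨θ, hθ⟩ : ∃ θ : ℝ, θ = #S * L / Y := ⟨_, rfl⟩
  have hs : (#S : ℝ) = θ * Y / L := by
    rw [hθ]; field_simp
  have hCge : (1 : ℝ) ≤ 1 + 225 * C₂ * Real.sqrt C₃ := by
    have : 0 ≤ 225 * C₂ * Real.sqrt C₃ := by positivity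
    linarith
  by_cases hc : θ ≤ D
  · rw [hs]
    have : θ * Y / L ≤ D * Y / L := by gcongr
    refine this.trans ?_
    have h5 : 0 ≤ (Y : ℝ) / L * D := by positivity
    calc D * Y / L = 1 * ((Y : ℝ) / L * D) := by ring
      _ ≤ (1 + 225 * C₂ * Real.sqrt C₃) * ((Y : ℝ) / L * D) := by gcongr
      _ = _ := by ring
  push Not at hc
  have hθpos : 0 < θ := hDpos.trans hc
  have hθ3 : θ ≤ 3 := by
    rw [hθ, div_le_iff₀ hYpos]
    have := hsC.trans p1
    rw [le_div_iff₀ hLpos] at this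
    exact this
  have hθL : 1 / L ^ 9 ≤ θ := hDL.trans hc.le
  have hs6 : 6 ≤ (#S : ℝ) := by
    rw [hs, le_div_iff₀ hLpos]
    calc 6 * L = 1 / L ^ 9 * (6 * L ^ 10) := by field_simp
      _ ≤ θ * Y := by gcongr
  -- the parameters
  set H := ⌈4 * L / θ⌉₊ with hH
  set I := ⌈12 / θ⌉₊ with hI
  have hH1 : 4 * L / θ ≤ H := Nat.le_ceil _
  have hI1 : 12 / θ ≤ I := Nat.le_ceil _
  have hLθ : 1 ≤ L / θ := by rw [le_div_iff₀ hθpos]; linarith
  have h3θ : 1 ≤ 3 / θ := by rw [le_div_iff₀ hθpos]; linarith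
  have hH2 : (H : ℝ) ≤ 5 * L / θ := by
    have := (Nat.ceil_lt_add_one (show 0 ≤ 4 * L / θ by positivity)).le
    calc (H : ℝ) ≤ 4 * L / θ + 1 := this
      _ ≤ 4 * L / θ + L / θ := by gcongr
      _ = _ := by ring
  have hI2 : (I : ℝ) ≤ 15 / θ := by
    have := (Nat.ceil_lt_add_one (show 0 ≤ 12 / θ by positivity)).le
    calc (I : ℝ) ≤ 12 / θ + 1 := this
      _ ≤ 12 / θ + 3 / θ := by gcongr
      _ = _ := by ring
  have hHpos' : (0 : ℝ) < H := lt_of_lt_of_le (by positivity) hH1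
  have hIpos' : (0 : ℝ) < I := lt_of_lt_of_le (by positivity) hI1
  have hHpos : 0 < H := by exact_mod_cast hHpos'
  have hIpos : 0 < I := by exact_mod_cast hIpos'
  have hH60 : (H : ℝ) ≤ L ^ 60 := by
    have h9 : 1 / θ ≤ L ^ 9 := by
      rw [div_le_iff₀ hθpos]
      have := mul_le_mul_of_nonneg_left hθL (show 0 ≤ L ^ 9 by positivity)
      have e : L ^ 9 * (1 / L ^ 9) = 1 := by field_simp
      linarith
    calc (H : ℝ) ≤ 5 * L / θ := hH2
      _ = 5 * L * (1 / θ) := by ring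
      _ ≤ L * L * L ^ 9 := by gcongr; linarith
      _ = L ^ 11 := by ring
      _ ≤ L ^ 60 := pow_le_pow_right₀ (by linarith) (by norm_num)
  have hA3 := h3 Y H I d c S hHpos hIpos (by
    intro q hq
    simp only [hS, mem_filter, mem_Ioc] at hq
    exact ⟨hq.2.1, hq.2.2.1, hq.1.2, hq.2.2.2⟩)
  have hA3' : (#S : ℝ) ≤ (Y / H : ℕ) + (Nat.primeCounting Y / I : ℕ) + 1 +
      ∑ i ∈ Ioo 0 I, ∑ g ∈ Ioo i H with d ∣ g - i,
        (#{q ∈ Ioc 0 Y | q.Prime ∧ (q + g).Prime} : ℝ) := by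
    exact_mod_cast hA3
  have b1 : ((Y / H : ℕ) : ℝ) ≤ #S / 4 := by
    calc ((Y / H : ℕ) : ℝ) ≤ Y / H := Nat.cast_div_le
      _ ≤ Y / (4 * L / θ) := by gcongr
      _ = #S / 4 := by rw [hs]; field_simp
  have b2 : ((Nat.primeCounting Y / I : ℕ) : ℝ) ≤ #S / 4 := by
    calc ((Nat.primeCounting Y / I : ℕ) : ℝ) ≤ Nat.primeCounting Y / I := Nat.cast_div_le
      _ ≤ (3 * Y / L) / (12 / θ) := by gcongr
      _ = #S / 4 := by rw [hs]; field_simp; norm_num
  have b3 : ∀ i ∈ Ioo 0 I, ∑ g ∈ Ioo i H with d ∣ g - i,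
        (#{q ∈ Ioc 0 Y | q.Prime ∧ (q + g).Prime} : ℝ) ≤
      C₂ * (Y / L ^ 2) * (H * (Real.sqrt C₃ * (d : ℝ) ^ (-(1 / 2) : ℝ))) := by
    intro i _
    calc ∑ g ∈ Ioo i H with d ∣ g - i, (#{q ∈ Ioc 0 Y | q.Prime ∧ (q + g).Prime} : ℝ)
        ≤ ∑ g ∈ Ioo i H with d ∣ g - i, C₂ * (Y / L ^ 2) * h g := by
          apply Finset.sum_le_sum
          intro g hg
          simp only [mem_filter, mem_Ioo] at hg
          have hg1 : 0 < g := by omega
          have hg2 : (g : ℝ) ≤ L ^ 60 := by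
            refine le_trans ?_ hH60
            exact_mod_cast (by omega : g ≤ H)
          refine (h1 Y p4 g hg1 hg2).trans (le_of_eq ?_)
          ring
      _ = C₂ * (Y / L ^ 2) * ∑ g ∈ Ioo i H with d ∣ g - i, h g := by rw [Finset.mul_sum]
      _ ≤ _ := by
          apply mul_le_mul_of_nonneg_left (a4_cs hC₃ h2 H i d hd) (by positivity)
  have b4 : ∑ i ∈ Ioo 0 I, ∑ g ∈ Ioo i H with d ∣ g - i,
        (#{q ∈ Ioc 0 Y | q.Prime ∧ (q + g).Prime} : ℝ) ≤
      I * (C₂ * (Y / L ^ 2) * (H * (Real.sqrt C₃ * (d : ℝ) ^ (-(1 / 2) : ℝ)))) := by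
    refine (Finset.sum_le_card_nsmul _ _ _ b3).trans ?_
    rw [nsmul_eq_mul]
    apply mul_le_mul_of_nonneg_right _ (by positivity)
    rw [Nat.card_Ioo]
    exact_mod_cast (by omega : I - 0 - 1 ≤ I)
  have b5 : (#S : ℝ) / 3 ≤
      I * (C₂ * (Y / L ^ 2) * (H * (Real.sqrt C₃ * (d : ℝ) ^ (-(1 / 2) : ℝ)))) := by
    linarith
  rw [← hD3] at b5
  have b6 : θ * Y / L / 3 ≤
      (15 / θ) * (C₂ * (Y / L ^ 2) * ((5 * L / θ) * (Real.sqrt C₃ * D ^ 3))) := by
    rw [← hs]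
    refine b5.trans ?_
    gcongr
  have b7 : θ ^ 3 ≤ 225 * C₂ * Real.sqrt C₃ * D ^ 3 := by
    have e1 : θ * Y / L / 3 = (Y / (3 * L * θ ^ 2)) * θ ^ 3 := by field_simp
    have e2 : (15 / θ) * (C₂ * (Y / L ^ 2) * ((5 * L / θ) * (Real.sqrt C₃ * D ^ 3))) =
        (Y / (3 * L * θ ^ 2)) * (225 * C₂ * Real.sqrt C₃ * D ^ 3) := by field_simp; ring
    rw [e1, e2] at b6
    exact le_of_mul_le_mul_left b6 (by positivity)
  have b8 : θ ^ 3 ≤ ((1 + 225 * C₂ * Real.sqrt C₃) * D) ^ 3 := by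
    rw [mul_pow]
    refine b7.trans ?_
    have h0 : 225 * C₂ * Real.sqrt C₃ ≤ (1 + 225 * C₂ * Real.sqrt C₃) ^ 3 := by
      have := le_self_pow₀ hCge (show (3 : ℕ) ≠ 0 by norm_num)
      linarith
    gcongr
  have b9 : θ ≤ (1 + 225 * C₂ * Real.sqrt C₃) * D :=
    le_of_pow_le_pow_left₀ (by norm_num) (by positivity) b8
  rw [hs]
  calc θ * Y / L ≤ ((1 + 225 * C₂ * Real.sqrt C₃) * D) * Y / L := by gcongr
    _ = _ := by ring

end Pool.Agent.helper29.PQ
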